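import Mathlib

set_option autoImplicit false
open MvPowerSeries Complex

namespace Pool.Agent.Results.MP_e6e7b2_al.NotHN

noncomputable def Hes {n : ℕ} (P : MvPowerSeries (Fin n) ℂ) :
    Matrix (Fin n) (Fin n) (MvPowerSeries (Fin n) ℂ) :=
  Matrix.of fun i j => pderiv ℂ i (pderiv ℂ j P)

abbrev R : Type := MvPowerSeries (Fin 3) ℂ

noncomputable def g : R := (1 - (X 0 + C I * X 1))⁻¹
noncomputable def u : R := X 0 - C I * X 1 - X 2 ^ 2 * g
noncomputable def v : R := X 2 * g
noncomputable def H : Fin 3 → R :=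
  ![3 * u ^ 2 * (1 - v ^ 2), 3 * u ^ 2 * (-C I - v ^ 2 * C I), 3 * u ^ 2 * (-2 * v)]

lemma hg : g * (1 - (X 0 + C I * X 1)) = 1 := MvPowerSeries.inv_mul_cancel _ (by simp)
lemma hI : (C I : R) ^ 2 = -1 := by rw [← map_pow, I_sq]; simp

lemma dg (j : Fin 3) : pderiv ℂ j g = g ^ 2 * pderiv ℂ j (X 0 + C I * X 1) := by
  have := congrArg (pderiv ℂ j) hg
  simp only [Derivation.leibniz, map_sub, Derivation.map_one_eq_zero, smul_eq_mul] at this
  linear_combination g * this - pderiv ℂ j g * hg

lemma du : pderiv ℂ 0 u = 1 - v ^ 2 ∧ pderiv ℂ 1 u = -C I - v ^ 2 * C I ∧ pderiv ℂ 2 u = -2 * v := by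
  refine ⟨?_, ?_, ?_⟩ <;> simp [u, v, dg, Derivation.leibniz_pow] <;> ring

lemma dP (j : Fin 3) : pderiv ℂ j (u ^ 3) = H j := by
  fin_cases j <;> simp [H, Derivation.leibniz_pow, du] <;> ring

lemma inv (t : R) (i : Fin 3) : subst (fun j => X j + t * H j) (H i) = H i := by
  have hs : HasSubst fun j => X j + t * H j := hasSubst_of_constantCoeff_zero fun j => by
    fin_cases j <;> simp [H, u]
  rw [← coe_substAlgHom hs]
  set φ := substAlgHom (R := ℂ) hs
  have hX : ∀ j, φ (X j) = X j + t * H j := substAlgHom_X hs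
  have hC : φ (C I) = C I := φ.commutes I
  have h1 := congrArg φ hg
  simp only [map_mul, map_sub, map_add, map_one, hX, hC, H, Matrix.cons_val] at h1
  have hv : φ v = v := by
    rw [v, map_mul, hX]
    simp only [H, Matrix.cons_val, v] at h1 ⊢
    have := hg; have := hI
    grind
  have hu : φ u = u := by
    have e : ∀ a b : R, a ^ 2 * b = a * (a * b) := fun _ _ => by ring
    rw [u, e, ← v, map_sub, map_sub, map_mul, map_mul, hv, hX, hX, hX, hC]
    simp only [H, Matrix.cons_val]
    have := hI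
    grind
  have h3 : φ 3 = 3 := map_ofNat φ 3
  have h2 : φ 2 = 2 := map_ofNat φ 2
  fin_cases i <;> simp [H, hu, hv, hC, h2, h3]

theorem result : ∃ (n : ℕ) (P : MvPowerSeries (Fin n) ℂ), 2 ≤ P.order ∧
    IsNilpotent ((Hes P).map constantCoeff) ∧
    (∀ i, subst (fun j => X j + pderiv ℂ j P) (X i - pderiv ℂ i P) = X i) ∧
    (∀ i, subst (fun j => X j - pderiv ℂ j P) (X i + pderiv ℂ i P) = X i) ∧
    ¬ IsNilpotent (Hes P) := by
  have h0 : constantCoeff u = 0 := by simp [u]
  have hs : ∀ t, HasSubst fun j => X j + t * H j := fun t =>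
    hasSubst_of_constantCoeff_zero fun j => by fin_cases j <;> simp [H, u]
  refine ⟨3, u ^ 3, ?_, ?_, fun i => ?_, fun i => ?_, fun h => ?_⟩
  · exact le_trans (by norm_num) (le_order_pow_of_constantCoeff_eq_zero 3 h0)
  · refine ⟨1, (pow_one _).trans ?_⟩
    ext i j
    simp [Hes, Derivation.leibniz_pow, h0]
  · have := inv 1 i
    have h := hs 1
    simp only [one_mul] at this h
    simp only [dP]
    rw [subst_sub h, this, subst_X h, add_sub_cancel_right]
  · have := inv (-1) i
    have h := hs (-1)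
    simp only [neg_one_mul, ← sub_eq_add_neg] at this h
    simp only [dP]
    rw [subst_add h, this, subst_X h, sub_add_cancel]
  · have h1 := (Matrix.isNilpotent_trace_of_isNilpotent h).eq_zero
    have h2 : (Hes (u ^ 3)).trace = -6 * u ^ 2 * g := by
      have d2 : ∀ i, pderiv ℂ i (2 : R) = 0 := fun i => (pderiv ℂ i).map_natCast 2
      have d3 : ∀ i, pderiv ℂ i (3 : R) = 0 := fun i => (pderiv ℂ i).map_natCast 3
      simp [Hes, Matrix.trace, Fin.sum_univ_three, Derivation.leibniz_pow, du, v, dg, d2, d3]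
      have := hI
      grind
    have h3 : u ≠ 0 := fun h => by simpa [h, v] using congrArg constantCoeff du.1
    have h4 : g ≠ 0 := fun h => by simpa [h] using hg
    have h5 : (6 : R) ≠ 0 := fun h => by simpa [map_ofNat] using congrArg constantCoeff h
    simp [h2, h3, h4, h5] at h1

end Pool.Agent.Results.MP_e6e7b2_al.NotHN
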